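import Mathlib

namespace Pool.Agent.Results.MP_d408b2_an.NoLimit

open Filter Topology

/-- The conserved quantity of the recurrence. -/
noncomputable def inv (A x y z : ℝ) : ℝ :=
  max (max A (max z y)) x * max 1 x⁻¹ * (max 1 y⁻¹ * max 1 z⁻¹)

lemma inv_step (A x y z : ℝ) (hA : 0 < A) (hx : 0 < x) :
    inv A y z (max A (max z y) / x) = inv A x y z := by
  unfold inv
  set m := max A (max z y) with hm
  have hm0 : 0 < m := lt_of_lt_of_le hA (le_max_left _ _)
  have h1 : max (max A (max (m / x) z)) y = m * max 1 x⁻¹ := by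
    rw [mul_max_of_nonneg _ _ hm0.le, mul_one, ← div_eq_mul_inv]
    have : max (max A (max (m / x) z)) y = max (max A (max z y)) (m / x) := by
      simp only [max_assoc, max_comm, max_left_comm]
    rw [this]
  have h2 : m * max 1 (m / x)⁻¹ = max m x := by
    rw [mul_max_of_nonneg _ _ hm0.le, mul_one]
    congr 1
    field_simp
  rw [h1, ← h2]
  ring

lemma one_le_mul_max (x : ℝ) (hx : 0 < x) : 1 ≤ x * max 1 x⁻¹ := by
  calc (1:ℝ) = x * x⁻¹ := by field_simp
    _ ≤ x * max 1 x⁻¹ := mul_le_mul_of_nonneg_left (le_max_right _ _) hx.le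

lemma inv_eq_one (A x y z : ℝ) (hx : 0 < x) (hy : 0 < y)
    (h : inv A x y z = 1) : x = 1 := by
  unfold inv at h
  set M := max (max A (max z y)) x with hM
  have hMx : x ≤ M := le_max_right _ _
  have hMy : y ≤ M := le_trans (le_trans (le_max_right _ _) (le_max_right _ _)) (le_max_left _ _)
  have a1 : (1:ℝ) ≤ max 1 x⁻¹ := le_max_left _ _
  have a2 : (1:ℝ) ≤ max 1 y⁻¹ := le_max_left _ _
  have a3 : (1:ℝ) ≤ max 1 z⁻¹ := le_max_left _ _
  have a4 : x⁻¹ ≤ max 1 x⁻¹ := le_max_right _ _
  have b2 := one_le_mul_max y hy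
  set p := max 1 x⁻¹
  set q := max 1 y⁻¹
  set r := max 1 z⁻¹
  have hM0 : 0 < M := lt_of_lt_of_le hx hMx
  have hqr : 1 ≤ q * r := by nlinarith
  have hpqr : 1 ≤ p * (q * r) := by nlinarith
  have h1 : x ≤ 1 := by
    have : M * (p * (q * r)) = 1 := by rw [← h]; ring
    nlinarith
  have hMq : 1 ≤ M * q := le_trans b2 (mul_le_mul_of_nonneg_right hMy (by linarith))
  have hMqr : 1 ≤ M * q * r := by nlinarith
  have h2 : p ≤ 1 := by
    have : p * (M * q * r) = 1 := by rw [← h]; ring
    nlinarith
  have h3 : x⁻¹ ≤ 1 := le_trans a4 h2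
  have h4 : 1 ≤ x := by
    rwa [inv_le_one₀ hx] at h3
  linarith

/-- No positive non-equilibrium solution of
`x (n+1) = max {A, x n, x (n-1)} / x (n-2)` has a limit (indices shifted by two). -/
theorem result (A : ℝ) (hA : 0 < A) (x : ℕ → ℝ) (hpos : ∀ n, 0 < x n)
    (hrec : ∀ n, x (n + 3) = max A (max (x (n + 2)) (x (n + 1))) / x n)
    (hnc : ¬ ∃ c : ℝ, ∀ n, x n = c) :
    ¬ ∃ L : ℝ, Tendsto x atTop (𝓝 L) := by
  rintro ⟨L, hL⟩
  apply hnc
  have hinv : ∀ n, inv A (x n) (x (n + 1)) (x (n + 2)) = inv A (x 0) (x 1) (x 2) := by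
    intro n
    induction n with
    | zero => rfl
    | succ k ih =>
      rw [← ih, show k + 1 + 2 = k + 3 by ring, hrec k]
      exact inv_step A _ _ _ hA (hpos k)
  have hL1 : Tendsto (fun n => x (n + 1)) atTop (𝓝 L) := hL.comp (tendsto_add_atTop_nat 1)
  have hL2 : Tendsto (fun n => x (n + 2)) atTop (𝓝 L) := hL.comp (tendsto_add_atTop_nat 2)
  have hL3 : Tendsto (fun n => x (n + 3)) atTop (𝓝 L) := hL.comp (tendsto_add_atTop_nat 3)
  have hprod : ∀ n, x (n + 3) * x n = max A (max (x (n + 2)) (x (n + 1))) := by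
    intro n
    rw [hrec n]
    exact div_mul_cancel₀ _ (hpos n).ne'
  have hLL : L * L = max A (max L L) := by
    have t1 : Tendsto (fun n => x (n + 3) * x n) atTop (𝓝 (L * L)) := hL3.mul hL
    have t2 : Tendsto (fun n => max A (max (x (n + 2)) (x (n + 1)))) atTop
        (𝓝 (max A (max L L))) := tendsto_const_nhds.max (hL2.max hL1)
    have t3 : (fun n => x (n + 3) * x n) = fun n => max A (max (x (n + 2)) (x (n + 1))) :=
      funext hprod
    rw [t3] at t1
    exact tendsto_nhds_unique t1 t2
  rw [max_self] at hLL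
  have hL0 : 0 ≤ L := ge_of_tendsto' hL fun n => (hpos n).le
  have hLpos : 0 < L := by
    rcases hL0.lt_or_eq with h | h
    · exact h
    · exfalso
      have : A ≤ L * L := by rw [hLL]; exact le_max_left _ _
      rw [← h] at this
      linarith
  by_cases hAL : A ≤ L
  · have hL1' : L = 1 := by
      rw [max_eq_right hAL] at hLL
      have : L * (L - 1) = 0 := by linarith
      rcases mul_eq_zero.1 this with h | h
      · linarith
      · linarith
    subst hL1'
    have t1 : Tendsto (fun n => inv A (x n) (x (n + 1)) (x (n + 2))) atTop (𝓝 (inv A 1 1 1)) := by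
      unfold inv
      exact (((tendsto_const_nhds.max (hL2.max hL1)).max hL).mul
        (tendsto_const_nhds.max (hL.inv₀ one_ne_zero))).mul
        ((tendsto_const_nhds.max (hL1.inv₀ one_ne_zero)).mul
          (tendsto_const_nhds.max (hL2.inv₀ one_ne_zero)))
    have t2 : inv A 1 1 1 = 1 := by
      unfold inv
      simp [max_eq_right hAL]
    have t3 : (fun n => inv A (x n) (x (n + 1)) (x (n + 2))) = fun _ => inv A (x 0) (x 1) (x 2) :=
      funext hinv
    rw [t3, t2] at t1
    have t4 : inv A (x 0) (x 1) (x 2) = 1 := tendsto_nhds_unique tendsto_const_nhds t1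
    exact ⟨1, fun n => inv_eq_one A _ _ _ (hpos n) (hpos (n + 1)) ((hinv n).trans t4)⟩
  · push Not at hAL
    obtain ⟨N, hN⟩ := eventually_atTop.1 (hL.eventually (gt_mem_nhds hAL))
    have h3 : ∀ n, N ≤ n → x (n + 3) * x n = A := by
      intro n hn
      rw [hprod n]
      exact max_eq_left (max_le (hN _ (by omega)).le (hN _ (by omega)).le)
    have h6 : ∀ n, N ≤ n → x (n + 6) = x n := by
      intro n hn
      have e1 := h3 n hn
      have e2 := h3 (n + 3) (by omega)
      have e3 : x (n + 3) * (x (n + 6) - x n) = 0 := by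
        rw [show n + 3 + 3 = n + 6 by ring] at e2
        linarith
      rcases mul_eq_zero.1 e3 with h | h
      · exact absurd h (hpos _).ne'
      · linarith
    have h6k : ∀ n, N ≤ n → ∀ k, x (n + 6 * k) = x n := by
      intro n hn k
      induction k with
      | zero => rfl
      | succ j ih => rw [show n + 6 * (j + 1) = (n + 6 * j) + 6 by ring, h6 _ (by omega), ih]
    have hc : ∀ n, N ≤ n → x n = L := by
      intro n hn
      have t0 : Tendsto (fun k : ℕ => n + 6 * k) atTop atTop :=
        tendsto_atTop_mono (fun k => by simp only [id]; omega) tendsto_id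
      have t1 : Tendsto (fun k => x (n + 6 * k)) atTop (𝓝 L) := hL.comp t0
      have t2 : (fun k => x (n + 6 * k)) = fun _ => x n := funext (h6k n hn)
      rw [t2] at t1
      exact tendsto_nhds_unique tendsto_const_nhds t1
    have hback : ∀ j n, N ≤ n + j → x n = L := by
      intro j
      induction j with
      | zero => intro n hn; exact hc n (by omega)
      | succ i ih =>
        intro n hn
        have e1 := ih (n + 1) (by omega)
        have e2 := ih (n + 2) (by omega)
        have e3 := ih (n + 3) (by omega)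
        have e4 := hprod n
        rw [e1, e2, e3, max_self, ← hLL] at e4
        exact mul_left_cancel₀ hLpos.ne' e4
    exact ⟨L, fun n => hback N n (by omega)⟩

end Pool.Agent.Results.MP_d408b2_an.NoLimit
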